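import Pool.Agent.helper99.ZR.Spec

/-!
# Project zr, row NUM: numbers
-/

set_option autoImplicit false

namespace Pool.Agent.ZR

open Finset
open Pool.Agent.helper32.Cant
open Pool.Agent.GA (nrm chi ch St sg flp Psi rc ph pot rpot far nc gf ncs gfs good mj om pick pat et kap mult)
open scoped ENNReal

noncomputable section

/-- the logarithm of a number `k ≥ 1468944` -/
theorem NUM_log (k : ℕ) (hk : 1468944 ≤ k) : 12 ≤ Real.log k := by
  have hk0 : (0 : ℝ) < k := by
    have : 0 < k := by omega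
    exact_mod_cast this
  rw [Real.le_log_iff_exp_le hk0]
  have h1 : Real.exp 12 = Real.exp 1 ^ 12 := by
    rw [← Real.exp_nat_mul]
    norm_num
  have h2 : Real.exp 1 ^ 12 ≤ (2.7182818286 : ℝ) ^ 12 :=
    pow_le_pow_left₀ (Real.exp_pos 1).le Real.exp_one_lt_d9.le 12
  have h3 : (2.7182818286 : ℝ) ^ 12 ≤ 1468944 := by norm_num
  have h4 : (1468944 : ℝ) ≤ k := by exact_mod_cast hk
  rw [h1]
  linarith

theorem NUM_clog (k : ℕ) (hk : 1468944 ≤ k) : (Nat.clog 3 k : ℝ) ≤ Real.log k := by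
  have hL := NUM_log k hk
  have hk0 : (0 : ℝ) < k := by
    have : 0 < k := by omega
    exact_mod_cast this
  have h1 : 3 ^ (Nat.clog 3 k).pred < k := Nat.pow_pred_clog_lt_self (by norm_num) (by omega)
  have hm : 0 < Nat.clog 3 k := Nat.clog_pos (by norm_num) (by omega)
  have h2 : ((3 : ℝ) ^ (Nat.clog 3 k).pred) < k := by exact_mod_cast h1
  have h3 := Real.log_lt_log (by positivity) h2
  rw [Real.log_pow] at h3
  have h4 : ((Nat.clog 3 k).pred : ℝ) = (Nat.clog 3 k : ℝ) - 1 := by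
    rw [Nat.pred_eq_sub_one, Nat.cast_sub hm]
    norm_num
  rw [h4] at h3
  have h5 := Real.log_three_gt_d9
  have h6 : (1 : ℝ) ≤ Nat.clog 3 k := by exact_mod_cast hm
  nlinarith

theorem NUM_606 (k : ℕ) (hk : 1468944 ≤ k) : 606 * Real.log k ≤ k := by
  have hk0 : (0 : ℝ) < k := by
    have : 0 < k := by omega
    exact_mod_cast this
  have h1 : (1212 : ℝ) ≤ √(k : ℝ) := by
    refine Real.le_sqrt_of_sq_le ?_
    have h0 : (1468944 : ℝ) ≤ k := by exact_mod_cast hk
    have h9 : (1212 : ℝ) ^ 2 = 1468944 := by norm_num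
    rw [h9]
    exact h0
  have h2 : Real.log k = 2 * Real.log (√(k : ℝ)) := by
    rw [Real.log_sqrt hk0.le]
    ring
  have h3 : Real.log (√(k : ℝ)) ≤ √(k : ℝ) := by
    have := Real.log_le_sub_one_of_pos (Real.sqrt_pos.2 hk0)
    linarith
  have h4 : √(k : ℝ) * √(k : ℝ) = k := Real.mul_self_sqrt hk0.le
  rw [h2]
  nlinarith

theorem NUM : NUM_stmt := by
  intro σ M hσ hM
  obtain ⟨K, hK⟩ := exists_nat_ge (12 * M / σ)
  refine ⟨max K 1468944, ?_⟩
  intro k hk j hj
  have hkK : K ≤ k := (le_max_left _ _).trans hk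
  have hk1 : 1468944 ≤ k := (le_max_right _ _).trans hk
  have hk0 : (0 : ℝ) < k := by
    have : 0 < k := by omega
    exact_mod_cast this
  have hL := NUM_log k hk1
  have hm := NUM_clog k hk1
  have h606 := NUM_606 k hk1
  set m : ℕ := Nat.clog 3 k with hmd
  have hkm : k ≤ 3 ^ m := Nat.le_pow_clog (by norm_num) k
  set L : ℝ := Real.log k with hLd
  refine ⟨?_, ?_, ?_, ?_⟩
  · -- the main inequality
    have hj0 : (0 : ℝ) < j := by
      have : 0 < j := by omega
      exact_mod_cast this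
    have hlj : 9 / 10 * L ≤ Real.log j := by
      have h1 : (k : ℝ) ≤ 2 * j := by exact_mod_cast hj
      have h2 := Real.log_le_log hk0 h1
      rw [Real.log_mul (by norm_num) hj0.ne'] at h2
      have h3 := Real.log_two_lt_d9
      linarith
    have hL0 : 0 ≤ L := by linarith
    have hlj3 : L ^ 3 / 2 ≤ Real.log j ^ 3 := by
      have h1 := pow_le_pow_left₀ (by linarith) hlj 3
      have h2 : (9 / 10 * L) ^ 3 = 729 / 1000 * L ^ 3 := by ring
      rw [h2] at h1
      have h3 : 0 ≤ L ^ 3 := pow_nonneg hL0 3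
      linarith
    have hm3 : (m : ℝ) ^ 3 ≤ L ^ 3 := pow_le_pow_left₀ (Nat.cast_nonneg m) hm 3
    have hL3 : L ≤ L ^ 3 := by
      have h1 : (1 : ℝ) ≤ L := by linarith
      exact le_self_pow₀ h1 (by norm_num)
    have hexp : Real.exp (2 * 10 ^ 13 * (m : ℝ) ^ 3) * psi (10 ^ 14) j ≤ Real.exp (-(3 * L)) := by
      unfold psi
      rw [← Real.exp_add]
      refine Real.exp_le_exp.2 ?_
      linarith
    have hkL : Real.exp L = k := by
      rw [hLd]
      exact Real.exp_log hk0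
    have h3L : Real.exp (-(3 * L)) = 1 / (k : ℝ) ^ 3 := by
      rw [Real.exp_neg, ← hkL, ← Real.exp_nat_mul, one_div]
      norm_num
    rw [h3L] at hexp
    have hMk : 12 * M ≤ σ * k := by
      have h1 : 12 * M / σ ≤ k := hK.trans (by exact_mod_cast hkK)
      rw [div_le_iff₀ hσ] at h1
      linarith
    have h1 : 6 * (Real.exp (2 * 10 ^ 13 * (m : ℝ) ^ 3) * (M * psi (10 ^ 14) j)) =
        6 * M * (Real.exp (2 * 10 ^ 13 * (m : ℝ) ^ 3) * psi (10 ^ 14) j) := by ring
    rw [h1]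
    have h2 : 6 * M * (Real.exp (2 * 10 ^ 13 * (m : ℝ) ^ 3) * psi (10 ^ 14) j) ≤
        6 * M * (1 / (k : ℝ) ^ 3) := mul_le_mul_of_nonneg_left hexp (by positivity)
    refine h2.trans ?_
    rw [mul_one_div, mul_one_div, div_le_div_iff₀ (by positivity) (by positivity)]
    have h3 : 0 < (k : ℝ) ^ 2 := by positivity
    nlinarith [mul_le_mul_of_nonneg_right hMk h3.le]
  · have hk2 : (2 : ℝ) ≤ k := by
      have : 2 ≤ k := by omega
      exact_mod_cast this
    have h1 : (k : ℝ) ≤ 3 ^ m := by exact_mod_cast hkm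
    have h2 : 2 * (k : ℝ) ^ 2 ≤ 3 ^ (12 * m) := by
      calc 2 * (k : ℝ) ^ 2 ≤ k * (k : ℝ) ^ 2 := mul_le_mul_of_nonneg_right hk2 (by positivity)
        _ = (k : ℝ) ^ 3 := by ring
        _ ≤ (k : ℝ) ^ 12 := pow_le_pow_right₀ (by linarith) (by norm_num)
        _ ≤ ((3 : ℝ) ^ m) ^ 12 := pow_le_pow_left₀ hk0.le h1 12
        _ = 3 ^ (12 * m) := by rw [← pow_mul, mul_comm]
    exact one_div_le_one_div_of_le (by positivity) h2
  · have h1 : 606 * (m : ℝ) ≤ k := by linarith
    exact_mod_cast h1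
  · by_contra hc
    have h1 : m ≤ 3 := by omega
    have h2 : 3 ^ m ≤ 3 ^ 3 := Nat.pow_le_pow_right (by norm_num) h1
    omega

end

end Pool.Agent.ZR
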